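import Mathlib

set_option autoImplicit false

namespace Pool.Agent.Results.MP_9b45c5_lc.Ten

open SimpleGraph Finset

/-- A directed path with at least one arc. -/
structure Req {V : Type} (T : SimpleGraph V) where
  s : V
  t : V
  p : T.Walk s t
  hp : p.IsPath
  hn : ¬ p.Nil

/-- `r` interferes on `r'`. -/
def Interf {V : Type} {T : SimpleGraph V} (r r' : Req T) : Prop :=
  ∃ q : T.Walk r.s r'.t, q.IsPath ∧ ¬ q.Nil ∧ q.snd = r.p.snd ∧ q.penultimate = r'.p.penultimate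

def IG {V ι : Type} {T : SimpleGraph V} (R : ι → Req T) : SimpleGraph ι :=
  fromRel fun i j => Interf (R i) (R j)

/-- `Run G S k`: some run of greedy MIS colouring colours the set `S` with exactly `k` colours. -/
inductive Run {ι : Type} [DecidableEq ι] (G : SimpleGraph ι) : Finset ι → ℕ → Prop
  | done : Run G ∅ 0
  | step {S I : Finset ι} {k : ℕ} : S.Nonempty → I ⊆ S → G.IsIndepSet I →
      (∀ J ⊆ S, G.IsIndepSet J → #J ≤ #I) → Run G (S \ I) k → Run G S (k + 1)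

section tree
variable {V : Type} {T : SimpleGraph V}

def H (T : SimpleGraph V) (x y : V) : Set V := {v | ∃ w : T.Walk y v, x ∉ w.support}

theorem Hnot (x y : V) : x ∉ H T x y := fun ⟨w, h⟩ => h w.end_mem_support

theorem Hext {x y u v : V} (h : u ∈ H T x y) (w : T.Walk u v) (g : x ∉ w.support) : v ∈ H T x y :=
  h.elim fun a l => ⟨a.append w, by simp [l, g]⟩

theorem Hsup {x y u v : V} (w : T.Walk y v) (g : x ∉ w.support) (h : u ∈ w.support) :
    u ∈ H T x y := by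
  classical exact ⟨w.takeUntil u h, fun l => g (w.support_takeUntil_subset h l)⟩

theorem Hpath {x y v : V} (a : T.Adj x y) (h : v ∈ H T x y) :
    ∃ q : T.Walk y v, (Walk.cons a q).IsPath := by
  classical exact h.elim fun w l => ⟨w.bypass, by
    simpa [w.bypass_isPath] using fun g => l (w.support_bypass_subset g)⟩

theorem Hcompl (hT : T.IsTree) {x y : V} (a : T.Adj x y) : (H T x y)ᶜ = H T y x := by
  ext v
  refine ⟨fun h => ?_, fun h g => ?_⟩
  · obtain ⟨w⟩ := hT.1 v y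
    have : ∀ {v z} (_ : T.Walk v z), z = y → v ∈ H T x y ∨ v ∈ H T y x := by
      intro v z w e
      induction w with
      | nil => exact .inl ⟨Walk.nil.copy e rfl, by simp [a.ne, e]⟩
      | @cons u _ _ b _ ih =>
        rcases ih e with l | l
        · by_cases e : u = x
          · exact .inr ⟨Walk.nil.copy e rfl, by simp [a.ne', e]⟩
          · exact .inl (Hext l b.symm.toWalk (by simp [Ne.symm e]; rintro rfl; exact Hnot _ _ l))
        · by_cases e : u = y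
          · exact .inl ⟨Walk.nil.copy e rfl, by simp [a.ne, e]⟩
          · exact .inr (Hext l b.symm.toWalk (by simp [Ne.symm e]; rintro rfl; exact Hnot _ _ l))
    exact (this w rfl).resolve_left h
  · obtain ⟨p, hp⟩ := Hpath a g
    obtain ⟨q, hq⟩ := Hpath a.symm h
    have := congrArg Subtype.val
      ((isAcyclic_iff_subsingleton_path.1 hT.2 _ _).elim ⟨q, hq.of_cons⟩ ⟨_, hp⟩)
    dsimp only at this
    simp [this] at hq

theorem lam (hT : T.IsTree) {x y z w o v : V} (a : T.Adj x y) (h1 : o ∉ H T x y)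
    (h2 : o ∉ H T z w) (h3 : v ∈ H T x y) (h4 : v ∈ H T z w) :
    H T x y ⊆ H T z w ∨ H T z w ⊆ H T x y := by
  have aux {x y z w : V} (h : x ∉ H T z w) (h3 : v ∈ H T x y) (h4 : v ∈ H T z w) :
      H T z w ⊆ H T x y := fun u ⟨b, hb⟩ => h4.elim fun a ha =>
    Hext (Hext h3 a.reverse (by simpa using fun l => h (Hsup a ha l))) b fun l => h (Hsup b hb l)
  by_cases e : x ∈ H T z w
  · refine .inl (aux (fun l => ?_) h4 h3)
    obtain ⟨c, hc⟩ := (Hcompl hT a).le h1
    exact h2 (Hext e c fun g => (Hcompl hT a).ge (Hsup c hc g) l)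
  · exact .inr (aux e h3 h4)

theorem hd {s t : V} {q : T.Walk s t} (h : q.IsPath) (n : ¬ q.Nil) : t ∈ H T s q.snd := by
  cases q with
  | nil => simp at n
  | cons a q => simpa using ⟨q, by simp_all⟩

theorem sub (hT : T.IsTree) {s t : V} {q : T.Walk s t} (h : q.IsPath) (n : ¬ q.Nil) :
    H T q.penultimate t ⊆ H T s q.snd := fun v ⟨a, ha⟩ => Hext (hd h n) a fun l => by
  have := hd h.reverse (by simpa using n)
  rw [Walk.snd_reverse, ← Hcompl hT (q.adj_penultimate n)] at this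
  exact this (Hsup a ha l)

theorem interf (hT : T.IsTree) (r r' : Req T) :
    Interf r r' ↔ H T r'.p.penultimate r'.t ⊆ H T r.s r.p.snd := by
  refine ⟨fun ⟨q, h, n, e1, e2⟩ => e1 ▸ e2 ▸ sub hT h n, fun h => ?_⟩
  have a := r'.p.adj_penultimate r'.hn
  obtain ⟨p, hp⟩ := Hpath (r.p.adj_snd r.hn) (h ⟨.nil, by simp [a.ne]⟩)
  obtain ⟨q, hq⟩ := Hpath a.symm ((Hcompl hT a).le fun l => Hnot _ _ (h l))
  refine ⟨_, hp, by simp, by simp, ?_⟩
  have := congrArg Subtype.val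
      ((isAcyclic_iff_subsingleton_path.1 hT.2 _ _).elim ⟨_, hp⟩ ⟨_, hq.reverse⟩)
  dsimp only at this
  rw [this, Walk.penultimate_reverse, Walk.snd_cons]

end tree

section pot
variable {ι : Type} [DecidableEq ι] (le : ι → ι → Prop)

def Anti (J : Finset ι) : Prop := ∀ a ∈ J, ∀ b ∈ J, le a b → a = b

open Classical in
noncomputable def up (E : Finset ι) (r : ι) : ℕ := #{j ∈ E | le r j}

def Inv (t w : ℕ) (E : Finset ι) : Prop := ∀ J ⊆ E, Anti le J → ∑ r ∈ J, (up le E r - t) ≤ w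

def Pot (E : Finset ι) (m : ℕ) : Prop := #E ≤ m ∨ ∃ t w, Inv le t w E ∧ 4 * t + w ≤ m

variable {le}

omit [DecidableEq ι] in
open Classical in
theorem Pot.mono {E F : Finset ι} {m : ℕ} (h : Pot le E m) (g : F ⊆ E) : Pot le F m :=
  h.imp (card_le_card g).trans fun ⟨t, w, h1, h2⟩ => ⟨t, w, fun J hJ a => le_trans
    (sum_le_sum fun _ _ => Nat.sub_le_sub_right (card_le_card (filter_subset_filter _ g)) t)
    (h1 J (hJ.trans g) a), h2⟩

theorem cover (hr : ∀ a, le a a) (ht : ∀ a b c, le a b → le b c → le a c) (E : Finset ι) :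
    ∃ J ⊆ E, Anti le J ∧ ∀ j ∈ E, ∃ r ∈ J, le r j := by
  classical
  induction E using Finset.induction_on with
  | empty => exact ⟨∅, by simp [Anti]⟩
  | insert a E _ ih =>
    obtain ⟨J, h1, h2, h3⟩ := ih
    by_cases e : ∃ r ∈ J, le r a
    · exact ⟨J, h1.trans (subset_insert ..), h2, by simpa [e] using h3⟩
    refine ⟨insert a {r ∈ J | ¬ le a r}, insert_subset_insert _ ((filter_subset ..).trans h1),
      fun x hx y hy => ?_, fun j hj => ?_⟩
    · simp only [mem_insert, mem_filter] at hx hy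
      grind [Anti]
    · simp only [mem_insert, mem_filter] at hj ⊢
      grind

theorem Pot.step (hr : ∀ a, le a a) (ht : ∀ a b c, le a b → le b c → le a c) {E K : Finset ι}
    (hf : ∀ a ∈ E, ∀ b ∈ E, ∀ c ∈ E, le a b → le a c → le b c ∨ le c b) (hK : K ⊆ E)
    (h0 : K.Nonempty) (h1 : Anti le K) (h2 : ∀ J ⊆ E, Anti le J → #J ≤ #K + 3) {m : ℕ}
    (h : Pot le E m) : ∃ n, m = n + 1 ∧ Pot le (E \ K) n := by
  classical
  have c (h : #E ≤ m) : ∃ n, m = n + 1 ∧ Pot le (E \ K) n := by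
    have := card_sdiff_add_card_eq_card hK
    have := card_pos.2 h0
    exact ⟨m - 1, by omega, .inl (by omega)⟩
  rcases h with h | ⟨_ | t, w, h, l⟩
  · exact c h
  · obtain ⟨J, h3, h4, h5⟩ := cover hr ht E
    refine c (le_trans (card_le_card (t := J.biUnion fun r => {j ∈ E | le r j}) fun j hj => ?_)
      (card_biUnion_le.trans ((h J h3 h4).trans (by omega))))
    simpa [hj] using h5 j hj
  refine ⟨m - 1, by omega, .inr ⟨t, w + 3, fun J hJ a => ?_, by omega⟩⟩
  have h3 (r : ι) : ∃ q, r ∈ J → q ∈ E ∧ le q r ∧ up le (E \ K) r - t ≤ up le E q - (t + 1) +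
      if ∀ i ∈ K, ¬ le i r ∧ ¬ le r i then 1 else 0 := by
    have (q i) (hi : i ∈ K) (l1 : le q r) (l2 : le q i) : up le (E \ K) r < up le E q :=
      card_lt_card ⟨fun j => by simp; grind, fun l => by
        simpa [hi] using l (x := i) (by simp [hK hi, l2])⟩
    split_ifs with e
    · have : up le (E \ K) r ≤ up le E r := card_le_card (filter_subset_filter _ sdiff_subset)
      exact ⟨r, fun hj => ⟨(mem_sdiff.1 (hJ hj)).1, hr r, by omega⟩⟩
    · obtain ⟨i, hi, e⟩ : ∃ i ∈ K, le i r ∨ le r i := by grind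
      rcases e with e | e
      · have := this i i hi e (hr i)
        exact ⟨i, fun _ => ⟨hK hi, e, by omega⟩⟩
      · have := this r i hi (hr r) e
        exact ⟨r, fun hj => ⟨(mem_sdiff.1 (hJ hj)).1, hr r, by omega⟩⟩
  choose φ hφ using h3
  have h4 : ∀ x ∈ J, ∀ y ∈ J, le (φ x) (φ y) → x = y := fun x hx y hy l =>
    (hf _ (hφ x hx).1 x (mem_sdiff.1 (hJ hx)).1 y (mem_sdiff.1 (hJ hy)).1 (hφ x hx).2.1
      (ht _ _ _ l (hφ y hy).2.1)).elim (a x hx y hy) fun l => (a y hy x hx l).symm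
  have h5 := h (J.image φ) (by simpa [image_subset_iff] using fun x hx => (hφ x hx).1) (by
    simp only [Anti, mem_image]
    rintro _ ⟨x, hx, rfl⟩ _ ⟨y, hy, rfl⟩ l
    rw [h4 x hx y hy l])
  rw [sum_image fun x hx y hy e => h4 x hx y hy (by rw [show φ x = φ y from e]; exact hr _)] at h5
  have h6 := h2 (K ∪ {r ∈ J | ∀ i ∈ K, ¬ le i r ∧ ¬ le r i}) (union_subset hK
    ((filter_subset ..).trans (hJ.trans sdiff_subset))) fun x hx y hy l => by
      simp only [mem_union, mem_filter] at hx hy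
      rcases hx with p | p <;> rcases hy with q | q
      exacts [h1 x p y q l, ((q.2 x p).1 l).elim, ((p.2 y q).2 l).elim, a x p.1 y q.1 l]
  rw [card_union_of_disjoint (Finset.disjoint_left.2 fun x hx l => by
    rw [mem_filter] at l; exact (l.2 x hx).1 (hr x)), card_filter] at h6
  refine (sum_le_sum fun r hj => (hφ r hj).2.2).trans ?_
  rw [sum_add_distrib]
  omega

omit [DecidableEq ι] in
theorem Pot.init {G : SimpleGraph ι} {c : ℕ} (h : G.Colorable c) {E : Finset ι}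
    (hf : ∀ a ∈ E, ∀ b ∈ E, ∀ c ∈ E, le a b → le a c → le b c ∨ le c b)
    (ha : ∀ a ∈ E, ∀ b ∈ E, G.Adj a b ↔ a ≠ b ∧ (le a b ∨ le b a)) : Pot le E (4 * c) := by
  refine .inr ⟨c, 0, fun J hJ _ => (sum_eq_zero fun r hr => Nat.sub_eq_zero_of_le
    (IsClique.card_le_of_colorable (fun x hx y hy n => ?_) h)).le, le_rfl⟩
  simp only [coe_filter, Set.mem_setOf_eq] at hx hy
  exact (ha x hx.1 y hy.1).2 ⟨n, hf r (hJ hr) x hx.1 y hy.1 hx.2 hy.2⟩

omit [DecidableEq ι] in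
theorem anti {G : SimpleGraph ι} {E J : Finset ι} (h : J ⊆ E)
    (ha : ∀ a ∈ E, ∀ b ∈ E, G.Adj a b ↔ a ≠ b ∧ (le a b ∨ le b a)) : Anti le J ↔ G.IsIndepSet J :=
  ⟨fun g x hx y hy n l => ((ha x (h hx) y (h hy)).1 l).2.elim (fun l => n (g x hx y hy l))
    fun l => n (g y hy x hx l).symm, fun g x hx y hy l => by_contra fun n =>
      g hx hy n ((ha x (h hx) y (h hy)).2 ⟨n, .inl l⟩)⟩

end pot

open Classical in
theorem main {ι : Type} [DecidableEq ι] {G : SimpleGraph ι} (D U : ι → Prop) (d u : ι → ι → Prop)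
    (dr : ∀ a, d a a) (dt : ∀ a b c, d a b → d b c → d a c)
    (ur : ∀ a, u a a) (ut : ∀ a b c, u a b → u b c → u a c)
    (df : ∀ a b c, D a → D b → D c → d a b → d a c → d b c ∨ d c b)
    (uf : ∀ a b c, U a → U b → U c → u a b → u a c → u b c ∨ u c b)
    (da : ∀ a b, D a → D b → (G.Adj a b ↔ a ≠ b ∧ (d a b ∨ d b a)))
    (ua : ∀ a b, U a → U b → (G.Adj a b ↔ a ≠ b ∧ (u a b ∨ u b a)))
    (h1 : ∀ I : Finset ι, G.IsIndepSet I → #{a ∈ I | ¬ D a ∧ ¬ U a} ≤ 2)
    (h2 : ∀ I : Finset ι, G.IsIndepSet I → #{a ∈ I | D a} ≤ 1 ∨ #{a ∈ I | U a} ≤ 1)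
    {S : Finset ι} {k : ℕ} (h : Run G S k) : ∀ a b, Pot d {x ∈ S | D x} a → Pot u {x ∈ S | U x} b →
      k ≤ a + b + #{x ∈ S | ¬ D x ∧ ¬ U x} := by
  induction h with
  | done => simp
  | @step S I k h3 h4 h5 h6 _ ih =>
    intro a b ha hb
    have m (P : ι → Prop) [DecidablePred P] : {x ∈ S \ I | P x} ⊆ {x ∈ S | P x} :=
      filter_subset_filter _ sdiff_subset
    have h7 : #I ≤ #{a ∈ I | D a} + #{a ∈ I | U a} + #{a ∈ I | ¬ D a ∧ ¬ U a} :=
      le_trans (card_le_card fun x hx => by simp; tauto) ((card_union_le _ _).trans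
        (Nat.add_le_add_right (card_union_le _ _) _))
    have h8 : 0 < #I := h3.elim fun x hx => h6 {x} (by simpa) (by simp)
    have := h1 I h5
    have := h2 I h5
    have := card_le_card (m fun x => ¬ D x ∧ ¬ U x)
    have st (D : ι → Prop) (d : ι → ι → Prop) (dr : ∀ a, d a a)
        (dt : ∀ a b c, d a b → d b c → d a c)
        (df : ∀ a b c, D a → D b → D c → d a b → d a c → d b c ∨ d c b)
        (da : ∀ a b, D a → D b → (G.Adj a b ↔ a ≠ b ∧ (d a b ∨ d b a))) {a : ℕ}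
        (ha : Pot d {x ∈ S | D x} a) (l1 : 0 < #{a ∈ I | D a}) (l2 : #I ≤ #{a ∈ I | D a} + 3) :
        ∃ n, a = n + 1 ∧ Pot d {x ∈ S \ I | D x} n := by
      have da' : ∀ a ∈ ({x ∈ S | D x} : Finset ι), ∀ b ∈ ({x ∈ S | D x} : Finset ι),
          G.Adj a b ↔ a ≠ b ∧ (d a b ∨ d b a) := fun a h b g =>
        da a b (mem_filter.1 h).2 (mem_filter.1 g).2
      convert Pot.step dr dt (K := {x ∈ I | D x}) (fun a h b g c l => df a b c (mem_filter.1 h).2
        (mem_filter.1 g).2 (mem_filter.1 l).2) (filter_subset_filter _ h4) (card_pos.1 l1)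
        ((anti (filter_subset_filter _ h4) da').2 (h5.mono fun x hx => (mem_filter.1 hx).1)) (fun J hJ l =>
          (h6 J (hJ.trans (filter_subset ..)) ((anti hJ da').1 l)).trans l2) ha using 4
      ext
      simp
      tauto
    by_cases c1 : 0 < #{a ∈ I | D a} ∧ #{a ∈ I | U a} ≤ 1
    · obtain ⟨n, rfl, l⟩ := st D d dr dt df da ha c1.1 (by omega)
      have := ih _ _ l (hb.mono (m U))
      omega
    by_cases c2 : 0 < #{a ∈ I | U a} ∧ #{a ∈ I | D a} ≤ 1
    · obtain ⟨n, rfl, l⟩ := st U u ur ut uf ua hb c2.1 (by omega)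
      have := ih _ _ (ha.mono (m D)) l
      omega
    obtain ⟨x, hx⟩ := card_pos.1 (show 0 < #{a ∈ I | ¬ D a ∧ ¬ U a} by omega)
    rw [mem_filter] at hx
    have := card_lt_card ⟨m fun x => ¬ D x ∧ ¬ U x, fun l => by
      simpa [hx.1] using l (x := x) (by simp [hx.2, h4 hx.1])⟩
    have := ih _ _ (ha.mono (m D)) (hb.mono (m U))
    omega

theorem result (V ι : Type) [Fintype V] [Fintype ι] [DecidableEq ι] (T : SimpleGraph V)
    (hT : T.IsTree) (R : ι → Req T) (k : ℕ) (h : Run (IG R) univ k) :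
    (k : ℕ∞) ≤ 10 * (IG R).chromaticNumber := by
  classical
  obtain ⟨o⟩ := hT.1.nonempty
  let A i := H T (R i).s (R i).p.snd
  let B i := H T (R i).p.penultimate (R i).t
  have a1 i := (R i).p.adj_snd (R i).hn
  have a2 i := (R i).p.adj_penultimate (R i).hn
  have adj i j : (IG R).Adj i j ↔ i ≠ j ∧ (B j ⊆ A i ∨ B i ⊆ A j) := by
    simp [IG, interf hT, A, B]
  have BA i : B i ⊆ A i := sub hT (R i).hp (R i).hn
  have Bn i : (R i).t ∈ B i := ⟨.nil, by simp [(a2 i).ne]⟩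
  have An i : (R i).s ∉ A i := Hnot _ _
  let L (S : Set V) := ∃ x y, T.Adj x y ∧ S = H T x y
  have LA i : L (A i) := ⟨_, _, a1 i, rfl⟩
  have LB i : L (B i) := ⟨_, _, a2 i, rfl⟩
  have Lc S (h : L S) : L Sᶜ := by
    obtain ⟨x, y, a, rfl⟩ := h
    exact ⟨_, _, a.symm, Hcompl hT a⟩
  have Ll S S' (h : L S) (h' : L S') (v) (h1 : o ∉ S) (h2 : o ∉ S') (h3 : v ∈ S) (h4 : v ∈ S') :
      S ⊆ S' ∨ S' ⊆ S := by
    obtain ⟨x, y, a, rfl⟩ := h
    obtain ⟨z, w, -, rfl⟩ := h'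
    exact lam hT a h1 h2 h3 h4
  have df a b c (_ : o ∉ A a) (hb : o ∉ A b) (hc : o ∉ A c) (h1 : A a ⊆ A b) (h2 : A a ⊆ A c) :=
    Ll _ _ (LA b) (LA c) _ hb hc (h1 (BA a (Bn a))) (h2 (BA a (Bn a)))
  have uf a b c (_ : o ∈ B a) (hb : o ∈ B b) (hc : o ∈ B c) (h1 : B b ⊆ B a) (h2 : B c ⊆ B a) :
      B c ⊆ B b ∨ B b ⊆ B c := by
    simpa using Ll _ _ (Lc _ (LB b)) (Lc _ (LB c)) (R a).s (by simpa) (by simpa)
      (fun l => An a (BA a (h1 l))) fun l => An a (BA a (h2 l))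
  have da a b (ha : o ∉ A a) (hb : o ∉ A b) :
      (IG R).Adj a b ↔ a ≠ b ∧ (A a ⊆ A b ∨ A b ⊆ A a) := by
    rw [adj]
    exact and_congr_right fun _ => ⟨fun h => h.elim
      (fun h => Ll _ _ (LA a) (LA b) _ ha hb (h (Bn b)) (BA b (Bn b)))
      fun h => Ll _ _ (LA a) (LA b) _ ha hb (BA a (Bn a)) (h (Bn a)),
      fun h => h.symm.imp (BA b).trans (BA a).trans⟩
  have ua a b (ha : o ∈ B a) (hb : o ∈ B b) :
      (IG R).Adj a b ↔ a ≠ b ∧ (B b ⊆ B a ∨ B a ⊆ B b) := by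
    rw [adj]
    refine and_congr_right fun _ => ⟨fun h => ?_,
      fun h => h.imp (·.trans (BA a)) (·.trans (BA b))⟩
    rcases h with h | h
    · simpa using Ll _ _ (Lc _ (LB a)) (Lc _ (LB b)) (R a).s (by simpa) (by simpa)
        (fun l => An a (BA a l)) fun l => An a (h l)
    · simpa using Ll _ _ (Lc _ (LB a)) (Lc _ (LB b)) (R b).s (by simpa) (by simpa)
        (fun l => An b (h l)) fun l => An b (BA b l)
  have na a b (ha : o ∈ A a) (hb : o ∉ B b) (n : ¬ B b ⊆ A a) : (A a)ᶜ ⊆ B b ∨ B b ⊆ (A a)ᶜ := by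
    obtain ⟨v, h1, h2⟩ := Set.not_subset.1 n
    exact Ll _ _ (Lc _ (LA a)) (LB b) v (by simpa) hb h2 h1
  have h1 (I : Finset ι) (hI : (IG R).IsIndepSet I) : #{a ∈ I | ¬ o ∉ A a ∧ ¬ o ∈ B a} ≤ 2 := by
    by_contra l
    obtain ⟨a, ha, b, hb, c, hc, n1, n2, n3⟩ := two_lt_card.1 (not_le.1 l)
    generalize hM : ({a ∈ I | ¬ o ∉ A a ∧ ¬ o ∈ B a} : Finset ι) = M at ha hb hc
    have hm a (h : a ∈ M) : a ∈ I ∧ o ∈ A a ∧ o ∉ B a := by simpa [← hM] using h
    have k a (ha : a ∈ M) b (hb : b ∈ M) (n : a ≠ b) := na a b (hm a ha).2.1 (hm b hb).2.2 fun l =>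
      hI (hm a ha).1 (hm b hb).1 n ((adj _ _).2 ⟨n, .inl l⟩)
    have s1 i j l (hj : j ∈ M) (hl : l ∈ M) (n : j ≠ l) (p : (A i)ᶜ ⊆ B j) (q : (A i)ᶜ ⊆ B l) :
        False := by
      rcases Ll _ _ (LB j) (LB l) _ (hm j hj).2.2 (hm l hl).2.2 (p (An i)) (q (An i)) with g | g
      · exact (k l hl j hj n.symm).elim (fun e => An l (BA l (g (e (An l)))))
          fun e => e (Bn j) (BA l (g (Bn j)))
      · exact (k j hj l hl n).elim (fun e => An j (BA j (g (e (An j)))))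
          fun e => e (Bn l) (BA j (g (Bn l)))
    have s2 i j l (hj : j ∈ M) (hl : l ∈ M) (n : j ≠ l) (p : B i ⊆ (A j)ᶜ) (q : B i ⊆ (A l)ᶜ) :
        False := by
      rcases Ll _ _ (Lc _ (LA j)) (Lc _ (LA l)) _ (not_not.2 (hm j hj).2.1)
        (not_not.2 (hm l hl).2.1) (p (Bn i)) (q (Bn i)) with g | g
      · exact (k j hj l hl n).elim (fun e => g (An j) (BA l (e (An j))))
          fun e => g (e (Bn l)) (BA l (Bn l))
      · exact (k l hl j hj n.symm).elim (fun e => g (An l) (BA j (e (An l))))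
          fun e => g (e (Bn j)) (BA j (Bn j))
    rcases k a ha b hb n1 with p | p
    · have q := (k a ha c hc n2).resolve_left (s1 a b c hb hc n3 p)
      have r := (k b hb c hc n3).resolve_right (s2 c a b ha hb n1 q)
      exact An b (BA b (p (q (r (An b)))))
    · have q := (k c hc b hb n3.symm).resolve_right (s2 b a c ha hc n2 p)
      have r := (k c hc a ha n2.symm).resolve_left fun e => s1 c a b ha hb n1 e q
      exact p (q (r (Bn a))) (BA a (Bn a))
  have h2 (I : Finset ι) (hI : (IG R).IsIndepSet I) :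
      #{a ∈ I | o ∉ A a} ≤ 1 ∨ #{a ∈ I | o ∈ B a} ≤ 1 := by
    by_contra! l
    obtain ⟨a, ha, b, hb, n⟩ := one_lt_card.1 l.1
    obtain ⟨c, hc, d, hd, m⟩ := one_lt_card.1 l.2
    simp only [mem_filter] at ha hb hc hd
    have k1 v (p : v ∈ A a) (q : v ∈ A b) := hI ha.1 hb.1 n ((da _ _ ha.2 hb.2).2
      ⟨n, Ll _ _ (LA a) (LA b) v ha.2 hb.2 p q⟩)
    have k2 v (p : v ∉ A c) (q : v ∉ A d) := hI hc.1 hd.1 m ((ua _ _ hc.2 hd.2).2 ⟨m, by
      simpa using Ll _ _ (Lc _ (LB c)) (Lc _ (LB d)) v (not_not.2 hc.2) (not_not.2 hd.2)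
        (fun l => p (BA c l)) fun l => q (BA d l)⟩)
    have k (a c) (ha : a ∈ I ∧ o ∉ A a) (hc : c ∈ I ∧ o ∈ B c) := na c a (BA _ hc.2)
      (fun l => ha.2 (BA _ l)) fun l => hI ha.1 hc.1 (by rintro rfl; exact ha.2 (BA _ hc.2))
        ((adj _ _).2 ⟨by rintro rfl; exact ha.2 (BA _ hc.2), .inr l⟩)
    have k3 a (ha : a ∈ I ∧ o ∉ A a) := (k a c ha hc).resolve_right fun p => (k a d ha hd).elim
      (fun q => k2 _ (p (q (An d))) (An d)) fun q => k2 _ (p (Bn a)) (q (Bn a))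
    exact k1 _ (BA a (k3 a ha (An c))) (BA b (k3 b hb (An c)))
  obtain ⟨c, hc⟩ := ENat.ne_top_iff_exists.1
    ((IG R).colorable_of_fintype.chromaticNumber_le.trans_lt (ENat.coe_lt_top _)).ne
  have col := chromaticNumber_le_iff_colorable.1 hc.ge
  have := main (o ∉ A ·) (o ∈ B ·) (fun i j => A i ⊆ A j) (fun i j => B j ⊆ B i)
    (fun _ => subset_rfl) (fun _ _ _ => subset_trans) (fun _ => subset_rfl)
    (fun _ _ _ h g => g.trans h) df uf da ua (by convert h1) (by convert h2) h _ _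
    (Pot.init col (by simpa using fun a h b g c l => df a b c h g l)
      (by simpa using fun a h b g => da a b h g))
    (Pot.init col (by simpa using fun a h b g c l => uf a b c h g l)
      (by simpa using fun a h b g => ua a b h g))
  obtain ⟨C⟩ := col
  have h3 := card_le_mul_card_image (f := C) {a | ¬ o ∉ A a ∧ ¬ o ∈ B a} 2 fun x _ => by
    convert h1 {a | C a = x} (fun a ha b hb _ l => C.valid l (by simp_all)) using 2
    ext
    simp [and_comm]
  have h4 := card_le_univ (image C {a | ¬ o ∉ A a ∧ ¬ o ∈ B a})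
  rw [Fintype.card_fin] at h4
  rw [← hc]
  norm_cast
  refine this.trans (le_trans (Nat.add_le_add_left (m := 2 * c) ?_ _) (by omega))
  refine le_of_eq_of_le ?_ (h3.trans (Nat.mul_le_mul_left 2 h4))
  congr

end Pool.Agent.Results.MP_9b45c5_lc.Ten
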